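import Mathlib

/-!
# Non-classical symmetric nets with groups transitive on joined and on non-joined pairs

Let `E` be a finite field and `τ : E → W` an additive map onto a group `W`.  The points `(x, y)` and the
blocks `(a, b)` with `x, a ∈ E` and `y, b ∈ W`, where `(x, y)` is on `(a, b)` if `y = τ(a x) + b`, form a
symmetric `(|W|, |ker τ|)`-net.  The translations, the shears `(x, y) ↦ (x, y + τ(c x))` and the maps
`(x, y) ↦ (c x, y)` generate a group which is transitive on the ordered pairs of joined points.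

Now let `E` be the field with `2 ^ (3 t)` elements, `σ` its automorphism of order three and `l ≠ 0` an
element with `l + σ(l) + σ²(l) = 0`.  The map `τ(z) = (Tr(l z), Tr(σ(l) z))` onto the group `W` of order
four satisfies `τ(σ(z)) = ρ(τ(z))` for an automorphism `ρ` of `W` which permutes the three nonzero elements
cyclically.  Hence the automorphism group of the symmetric `(4, 2 ^ (3 t - 2))`-net is also transitive on
the pairs of non-joined points.  If `t` is odd, then the net is not classical, since `2 ^ (3 t - 2)` is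
not a power of four.
-/

set_option autoImplicit false

namespace Pool.Agent.Results.MP_36fbc5_co.NonClassicalPairTransitive

/-! ### The notions of the problem -/

section Defs

variable {P B : Type}

/-- `I : P → B → Prop` is the incidence relation of an `(s, r, μ)`-net with point set `P` and blocks
`{p | I p b}`, `b ∈ B`: there are `s² μ` points, the blocks are (pairwise different) sets of `s μ` points,
and `c` divides the blocks into `r` parallel classes each of which is a partition of the point set, such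
that two blocks from different classes meet in exactly `μ` points. -/
def IsNet (I : P → B → Prop) (s r μ : ℕ) : Prop :=
  Nat.card P = s ^ 2 * μ ∧ (∀ b : B, {p : P | I p b}.ncard = s * μ) ∧
    (∀ b b' : B, {p : P | I p b} = {p : P | I p b'} → b = b') ∧
    ∃ c : B → Fin r, (∀ (i : Fin r) (p : P), ∃! b : B, c b = i ∧ I p b) ∧
      ∀ b b' : B, c b ≠ c b' → {p : P | I p b ∧ I p b'}.ncard = μ

/-- `I` is the incidence relation of a symmetric `(s, μ)`-net: it defines an `(s, s μ, μ)`-net, and so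
does the dual incidence structure. -/
def IsSymmetricNet (I : P → B → Prop) (s μ : ℕ) : Prop :=
  2 ≤ s ∧ 1 ≤ μ ∧ 3 ≤ s * μ ∧ IsNet I s (s * μ) μ ∧ IsNet (fun b p => I p b) s (s * μ) μ

/-- The permutation `g` of the points is an automorphism: it maps blocks to blocks. -/
def IsAutomorphism (I : P → B → Prop) (g : Equiv.Perm P) : Prop :=
  ∀ b : B, ∃ b' : B, g '' {p : P | I p b} = {p : P | I p b'}

/-- Two distinct points are joined if some block contains both. -/
def Joined (I : P → B → Prop) (p q : P) : Prop := p ≠ q ∧ ∃ b : B, I p b ∧ I q b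

/-- Distinct points that are not joined. -/
def NonJoined (I : P → B → Prop) (p q : P) : Prop := p ≠ q ∧ ¬ ∃ b : B, I p b ∧ I q b

/-- The group `G` is transitive on the unordered pairs `{p, q}` with `R p q`. -/
def TransitiveOnPairs (G : Subgroup (Equiv.Perm P)) (R : P → P → Prop) : Prop :=
  ∀ p q p' q' : P, R p q → R p' q' → ∃ g ∈ G, g '' {p, q} = {p', q'}

/-- `I` is (isomorphic to) a classical symmetric net: the points correspond to the points of the affine
space `AG(d, F)`, `d ≥ 2`, `F` a finite field, and the blocks to all hyperplanes which are not parallel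
to a fixed line, that is, to the sets `{x | φ x = c}` with a linear functional `φ` that does not vanish
at the direction `v` of the line. -/
def IsClassical (I : P → B → Prop) : Prop :=
  ∃ (F : Type) (_ : Field F) (_ : Finite F) (d : ℕ) (v : Fin d → F) (f : P ≃ (Fin d → F)),
    2 ≤ d ∧ v ≠ 0 ∧
      Set.range (fun b : B => f '' {p : P | I p b}) =
        {H | ∃ (φ : Module.Dual F (Fin d → F)) (c : F), φ v ≠ 0 ∧ H = {x | φ x = c}}

end Defs

/-! ### Nets from fields -/

section General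

variable {E W : Type} [Field E] [Finite E] [AddCommGroup W] [Finite W]

/-- The point `(x, y)` is on the block `(a, b)` if `y = τ (a x) + b`. -/
def Inc (τ : E →+ W) (p b : E × W) : Prop := p.2 = τ (b.1 * p.1) + b.2

omit [Finite W] in
lemma ncard_fiber {A : Type} [AddCommGroup A] (τ : A →+ W) (hτ : Function.Surjective τ) (w : W) :
    {x : A | τ x = w}.ncard * Nat.card W = Nat.card A := by
  obtain ⟨x0, hx0⟩ := hτ w
  have h1 : {x : A | τ x = w}.ncard = Nat.card τ.ker := by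
    rw [← Nat.card_coe_set_eq]
    refine Nat.card_congr ⟨fun x => ⟨x.1 - x0, ?_⟩, fun k => ⟨k.1 + x0, ?_⟩, ?_, ?_⟩
    · rw [AddMonoidHom.mem_ker, map_sub, hx0, x.2, sub_self]
    · show τ (k.1 + x0) = w
      rw [map_add, hx0, AddMonoidHom.mem_ker.1 k.2, zero_add]
    · intro x; simp
    · intro k; simp
  rw [h1]
  have h2 := AddSubgroup.card_mul_index τ.ker
  rw [← h2, AddSubgroup.index_ker, AddMonoidHom.range_eq_top.2 hτ, Nat.card_congr
    (AddSubgroup.topEquiv (G := W)).toEquiv]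

omit [Finite W] in
lemma isNet (τ : E →+ W) (hτ : Function.Surjective τ) (s μ : ℕ) (hs : 2 ≤ s) (hW : Nat.card W = s)
    (hE : Nat.card E = s * μ) : IsNet (Inc τ) s (s * μ) μ := by
  have hfib : ∀ w, {x : E | τ x = w}.ncard = μ := by
    intro w
    have h := ncard_fiber τ hτ w
    rw [hW, hE, mul_comm] at h
    exact Nat.eq_of_mul_eq_mul_left (by omega) h
  refine ⟨?_, ?_, ?_, ?_⟩
  · rw [Nat.card_prod, hE, hW]; ring
  · intro b
    rw [← hE, ← Nat.card_coe_set_eq]
    refine Nat.card_congr ⟨fun p => p.1.1, fun x => ⟨(x, τ (b.1 * x) + b.2), rfl⟩, ?_, ?_⟩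
    · rintro ⟨⟨x, y⟩, h⟩
      have h' : y = τ (b.1 * x) + b.2 := h
      subst h'
      rfl
    · intro x; rfl
  · rintro ⟨a, b⟩ ⟨a', b'⟩ h
    have hmem : ∀ x y, y = τ (a * x) + b ↔ y = τ (a' * x) + b' := by
      intro x y
      have := Set.ext_iff.1 h (x, y)
      exact this
    have hb : b = b' := by
      have := (hmem 0 b).1 (by simp)
      simpa using this
    subst hb
    by_cases hab : a = a'
    · rw [hab]
    · exfalso
      have h0 : ∀ z, τ z = 0 := by
        intro z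
        have h1 := (hmem ((a - a')⁻¹ * z) _).1 rfl
        rw [add_left_inj] at h1
        have hne : a - a' ≠ 0 := sub_ne_zero.2 hab
        have h2 : τ ((a - a') * ((a - a')⁻¹ * z)) = 0 := by
          rw [sub_mul, map_sub, h1, sub_self]
        rwa [mul_inv_cancel_left₀ hne] at h2
      have hsub : Subsingleton W := ⟨fun w w' => by
        obtain ⟨z, rfl⟩ := hτ w
        obtain ⟨z', rfl⟩ := hτ w'
        rw [h0, h0]⟩
      have := Nat.card_of_subsingleton (0 : W)
      omega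
  · obtain ⟨e⟩ : Nonempty (E ≃ Fin (s * μ)) := by
      rw [← hE]
      exact ⟨Finite.equivFin E⟩
    refine ⟨fun b => e b.1, ?_, ?_⟩
    · intro i p
      refine ⟨(e.symm i, p.2 - τ (e.symm i * p.1)), ⟨by simp, ?_⟩, ?_⟩
      · show p.2 = τ (e.symm i * p.1) + (p.2 - τ (e.symm i * p.1))
        abel
      · rintro ⟨a, b⟩ ⟨h1, h2⟩
        have h1' : a = e.symm i := by rw [← h1]; simp
        subst h1'
        have h2' : p.2 = τ (e.symm i * p.1) + b := h2
        rw [h2']
        simp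
    · rintro ⟨a, b⟩ ⟨a', b'⟩ hc
      have hne : a - a' ≠ 0 := sub_ne_zero.2 fun h => hc (by rw [h])
      rw [← hfib (b' - b), ← Nat.card_coe_set_eq, ← Nat.card_coe_set_eq]
      refine Nat.card_congr ⟨fun p => ⟨(a - a') * p.1.1, ?_⟩,
        fun x => ⟨((a - a')⁻¹ * x.1, τ (a * ((a - a')⁻¹ * x.1)) + b), rfl, ?_⟩, ?_, ?_⟩
      · obtain ⟨⟨x, y⟩, h1, h2⟩ := p
        have h1' : y = τ (a * x) + b := h1
        have h2' : y = τ (a' * x) + b' := h2
        show τ ((a - a') * x) = b' - b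
        rw [sub_mul, map_sub, sub_eq_sub_iff_add_eq_add, ← h1', h2', add_comm]
      · show τ (a * ((a - a')⁻¹ * x.1)) + b = τ (a' * ((a - a')⁻¹ * x.1)) + b'
        have hx : τ x.1 = b' - b := x.2
        have h3 : τ (a * ((a - a')⁻¹ * x.1)) - τ (a' * ((a - a')⁻¹ * x.1)) = b' - b := by
          rw [← map_sub, ← sub_mul, mul_inv_cancel_left₀ hne, hx]
        rw [sub_eq_sub_iff_add_eq_add] at h3
        rw [h3, add_comm]
      · rintro ⟨⟨x, y⟩, h1, h2⟩
        have h1' : y = τ (a * x) + b := h1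
        apply Subtype.ext
        show ((a - a')⁻¹ * ((a - a') * x), τ (a * ((a - a')⁻¹ * ((a - a') * x))) + b) = (x, y)
        rw [inv_mul_cancel_left₀ hne, h1']
      · rintro ⟨x, hx⟩
        apply Subtype.ext
        show (a - a') * ((a - a')⁻¹ * x) = x
        rw [mul_inv_cancel_left₀ hne]

omit [Finite W] in
lemma isSymmetricNet (τ : E →+ W) (hτ : Function.Surjective τ) (s μ : ℕ) (hs : 2 ≤ s) (hμ : 1 ≤ μ)
    (h3 : 3 ≤ s * μ) (hW : Nat.card W = s) (hE : Nat.card E = s * μ) :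
    IsSymmetricNet (Inc τ) s μ := by
  refine ⟨hs, hμ, h3, isNet τ hτ s μ hs hW hE, ?_⟩
  have h : (fun b p => Inc τ p b) = Inc (-τ) := by
    funext b p
    apply propext
    show p.2 = τ (b.1 * p.1) + b.2 ↔ b.2 = -τ (p.1 * b.1) + p.2
    rw [mul_comm p.1 b.1]
    constructor
    · intro h; rw [h]; abel
    · intro h; rw [h]; abel
  rw [h]
  refine isNet (-τ) ?_ s μ hs hW hE
  intro w
  obtain ⟨z, hz⟩ := hτ (-w)
  exact ⟨z, by rw [AddMonoidHom.neg_apply, hz, neg_neg]⟩

omit [Finite E] [Finite W] in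
lemma joined_iff (τ : E →+ W) (hτ : Function.Surjective τ) (p q : E × W) :
    (∃ b, Inc τ p b ∧ Inc τ q b) ↔ (p.1 ≠ q.1 ∨ p = q) := by
  constructor
  · rintro ⟨b, h1, h2⟩
    by_cases h : p.1 = q.1
    · right
      refine Prod.ext h ?_
      have h1' : p.2 = τ (b.1 * p.1) + b.2 := h1
      have h2' : q.2 = τ (b.1 * q.1) + b.2 := h2
      rw [h1', h2', h]
    · exact Or.inl h
  · rintro (h | rfl)
    · obtain ⟨z, hz⟩ := hτ (p.2 - q.2)
      have hne : p.1 - q.1 ≠ 0 := sub_ne_zero.2 h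
      refine ⟨(z * (p.1 - q.1)⁻¹, p.2 - τ (z * (p.1 - q.1)⁻¹ * p.1)), ?_, ?_⟩
      · show p.2 = τ (z * (p.1 - q.1)⁻¹ * p.1) + (p.2 - τ (z * (p.1 - q.1)⁻¹ * p.1))
        abel
      · show q.2 = τ (z * (p.1 - q.1)⁻¹ * q.1) + (p.2 - τ (z * (p.1 - q.1)⁻¹ * p.1))
        have h1 : τ (z * (p.1 - q.1)⁻¹ * p.1) - τ (z * (p.1 - q.1)⁻¹ * q.1) = p.2 - q.2 := by
          rw [← map_sub, ← mul_sub, inv_mul_cancel_right₀ hne, hz]
        have h2 : τ (z * (p.1 - q.1)⁻¹ * p.1) = p.2 - q.2 + τ (z * (p.1 - q.1)⁻¹ * q.1) := by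
          rw [← h1]; abel
        rw [h2]; abel
    · exact ⟨(0, p.2), by show p.2 = τ (0 * p.1) + p.2; simp, by
        show p.2 = τ (0 * p.1) + p.2; simp⟩

omit [Finite W] in
lemma not_classical (τ : E →+ W) 
    (h : IsClassical (Inc τ)) (hno : ∀ d, Nat.card E * Nat.card W ≠ Nat.card W ^ d) : False := by
  obtain ⟨F, _, _, d, v, f, -, -, hr⟩ := h
  have h1 : f '' {p | Inc τ p (0, 0)} ∈ Set.range (fun b => f '' {p | Inc τ p b}) := ⟨(0, 0), rfl⟩
  rw [hr] at h1
  obtain ⟨φ, c, hφ, hH⟩ := h1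
  have hP : Nat.card E * Nat.card W = Nat.card F ^ d := by
    rw [← Nat.card_prod, Nat.card_congr f, Nat.card_fun, Nat.card_fin]
  have hsurj : Function.Surjective φ.toAddMonoidHom := by
    intro w
    refine ⟨(w * (φ v)⁻¹) • v, ?_⟩
    show φ ((w * (φ v)⁻¹) • v) = w
    rw [map_smul, smul_eq_mul, inv_mul_cancel_right₀ hφ]
  have h2 := ncard_fiber φ.toAddMonoidHom hsurj c
  have h3 : {x | φ.toAddMonoidHom x = c} = {x | φ x = c} := rfl
  have hE : {p : E × W | Inc τ p (0, 0)}.ncard = Nat.card E := by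
    rw [← Nat.card_coe_set_eq]
    refine Nat.card_congr ⟨fun p => p.1.1, fun x => ⟨(x, τ (0 * x) + 0), rfl⟩, ?_, ?_⟩
    · rintro ⟨⟨x, y⟩, h⟩
      have h' : y = τ (0 * x) + 0 := h
      subst h'
      rfl
    · intro x; rfl
  rw [h3, ← hH, Set.ncard_image_of_injective _ f.injective, hE, Nat.card_fun, Nat.card_fin,
    ← hP] at h2
  have hEpos : 0 < Nat.card E := Nat.card_pos
  have h4 : Nat.card F = Nat.card W := Nat.eq_of_mul_eq_mul_left hEpos h2
  rw [h4] at hP
  exact hno d hP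

lemma perm_apply_inv {X : Type} (g : Equiv.Perm X) (x : X) : g (g⁻¹ x) = x := g.apply_symm_apply x

lemma perm_inv_apply {X : Type} (g : Equiv.Perm X) (x : X) : g⁻¹ (g x) = x := g.symm_apply_apply x

/-- The group of all automorphisms. -/
def autGroup {P B : Type} (I : P → B → Prop) : Subgroup (Equiv.Perm P) where
  carrier := {g | IsAutomorphism I g ∧ IsAutomorphism I g⁻¹}
  mul_mem' := by
    rintro g g' ⟨h1, h2⟩ ⟨h1', h2'⟩
    constructor
    · intro b
      obtain ⟨b', hb'⟩ := h1' b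
      obtain ⟨b'', hb''⟩ := h1 b'
      refine ⟨b'', ?_⟩
      rw [Equiv.Perm.coe_mul, Set.image_comp, hb', hb'']
    · intro b
      obtain ⟨b', hb'⟩ := h2 b
      obtain ⟨b'', hb''⟩ := h2' b'
      refine ⟨b'', ?_⟩
      rw [mul_inv_rev, Equiv.Perm.coe_mul, Set.image_comp, hb', hb'']
  one_mem' := ⟨fun b => ⟨b, by simp⟩, fun b => ⟨b, by simp⟩⟩
  inv_mem' := by
    rintro g ⟨h1, h2⟩
    exact ⟨h2, by rwa [inv_inv]⟩

lemma mem_autGroup {P B : Type} (I : P → B → Prop) (g : Equiv.Perm P) (h : Equiv.Perm B)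
    (hgh : ∀ p b, I (g p) (h b) ↔ I p b) : g ∈ autGroup I := by
  have key : ∀ (g : Equiv.Perm P) (h : Equiv.Perm B), (∀ p b, I (g p) (h b) ↔ I p b) →
      IsAutomorphism I g := by
    intro g h hgh b
    refine ⟨h b, ?_⟩
    ext q
    constructor
    · rintro ⟨p, hp, rfl⟩
      exact (hgh p b).2 hp
    · intro hq
      refine ⟨g⁻¹ q, ?_, by simp⟩
      have := (hgh (g⁻¹ q) b).1
      rw [perm_apply_inv] at this
      exact this hq
  refine ⟨key g h hgh, key g⁻¹ h⁻¹ fun p b => ?_⟩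
  have := hgh (g⁻¹ p) (h⁻¹ b)
  rw [perm_apply_inv, perm_apply_inv] at this
  exact this.symm

/-- Translations. -/
def trans (x0 : E) (y0 : W) : Equiv.Perm (E × W) where
  toFun p := (p.1 + x0, p.2 + y0)
  invFun p := (p.1 - x0, p.2 - y0)
  left_inv p := by simp
  right_inv p := by simp

omit [Finite E] [Finite W] in
lemma trans_mem (τ : E →+ W) (x0 : E) (y0 : W) : trans x0 y0 ∈ autGroup (Inc τ) := by
  refine mem_autGroup _ _ ⟨fun b => (b.1, b.2 + y0 - τ (b.1 * x0)),
    fun b => (b.1, b.2 - y0 + τ (b.1 * x0)),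
    fun b => Prod.ext rfl (by show b.2 + y0 - τ (b.1 * x0) - y0 + τ (b.1 * x0) = b.2; abel),
    fun b => Prod.ext rfl (by show b.2 - y0 + τ (b.1 * x0) + y0 - τ (b.1 * x0) = b.2; abel)⟩ ?_
  rintro ⟨x, y⟩ ⟨a, b⟩
  show y + y0 = τ (a * (x + x0)) + (b + y0 - τ (a * x0)) ↔ y = τ (a * x) + b
  rw [mul_add, map_add]
  constructor
  · intro h
    have h2 : y + y0 = (τ (a * x) + b) + y0 := by rw [h]; abel
    exact add_right_cancel h2
  · intro h; rw [h]; abel

/-- Shears. -/
def shear (τ : E →+ W) (a0 : E) : Equiv.Perm (E × W) where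
  toFun p := (p.1, p.2 + τ (a0 * p.1))
  invFun p := (p.1, p.2 - τ (a0 * p.1))
  left_inv p := by simp
  right_inv p := by simp

omit [Finite E] [Finite W] in
lemma shear_mem (τ : E →+ W) (a0 : E) : shear τ a0 ∈ autGroup (Inc τ) := by
  refine mem_autGroup _ _ ⟨fun b => (b.1 + a0, b.2), fun b => (b.1 - a0, b.2),
    fun b => by ext <;> simp, fun b => by ext <;> simp⟩ ?_
  rintro ⟨x, y⟩ ⟨a, b⟩
  show y + τ (a0 * x) = τ ((a + a0) * x) + b ↔ y = τ (a * x) + b
  rw [add_mul, map_add]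
  constructor
  · intro h
    have h2 : y + τ (a0 * x) = (τ (a * x) + b) + τ (a0 * x) := by rw [h]; abel
    exact add_right_cancel h2
  · intro h; rw [h]; abel

/-- Scalings. -/
def scale (W : Type) (c : E) (hc : c ≠ 0) : Equiv.Perm (E × W) where
  toFun p := (c * p.1, p.2)
  invFun p := (c⁻¹ * p.1, p.2)
  left_inv p := by simp [inv_mul_cancel_left₀ hc]
  right_inv p := by simp [mul_inv_cancel_left₀ hc]

omit [Finite E] [Finite W] in
lemma scale_mem (τ : E →+ W) (c : E) (hc : c ≠ 0) : scale W c hc ∈ autGroup (Inc τ) := by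
  refine mem_autGroup _ _ (scale W c⁻¹ (inv_ne_zero hc)) ?_
  rintro ⟨x, y⟩ ⟨a, b⟩
  show y = τ (c⁻¹ * a * (c * x)) + b ↔ y = τ (a * x) + b
  rw [show c⁻¹ * a * (c * x) = a * x by field_simp]

/-- Field automorphisms. -/
def fieldAut (σ : E ≃+* E) (ρ : W ≃+ W) : Equiv.Perm (E × W) where
  toFun p := (σ p.1, ρ p.2)
  invFun p := (σ.symm p.1, ρ.symm p.2)
  left_inv p := by simp
  right_inv p := by simp

omit [Finite E] [Finite W] in
lemma fieldAut_mem (τ : E →+ W) (σ : E ≃+* E) (ρ : W ≃+ W) (h : ∀ z, τ (σ z) = ρ (τ z)) :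
    fieldAut σ ρ ∈ autGroup (Inc τ) := by
  refine mem_autGroup _ _ (fieldAut σ ρ) ?_
  rintro ⟨x, y⟩ ⟨a, b⟩
  show ρ y = τ (σ a * σ x) + ρ b ↔ y = τ (a * x) + b
  rw [← map_mul, h, ← map_add, ρ.injective.eq_iff]

omit [Finite E] [Finite W] in
lemma to_base (τ : E →+ W) (hτ : Function.Surjective τ) (p q : E × W)
    (h : Joined (Inc τ) p q) : ∃ g ∈ autGroup (Inc τ), g p = (0, 0) ∧ g q = (1, 0) := by
  have hne : p.1 ≠ q.1 := by
    rcases (joined_iff τ hτ p q).1 h.2 with h1 | h1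
    · exact h1
    · exact absurd h1 h.1
  have hc : (q.1 - p.1)⁻¹ ≠ 0 := inv_ne_zero (sub_ne_zero.2 hne.symm)
  obtain ⟨a0, ha0⟩ := hτ (-(q.2 - p.2))
  refine ⟨shear τ a0 * (scale W _ hc * trans (-p.1) (-p.2)),
    mul_mem (shear_mem τ a0) (mul_mem (scale_mem τ _ hc) (trans_mem τ _ _)), ?_, ?_⟩
  · show ((q.1 - p.1)⁻¹ * (p.1 + -p.1), p.2 + -p.2 + τ (a0 * ((q.1 - p.1)⁻¹ * (p.1 + -p.1)))) = _
    simp
  · show ((q.1 - p.1)⁻¹ * (q.1 + -p.1), q.2 + -p.2 + τ (a0 * ((q.1 - p.1)⁻¹ * (q.1 + -p.1)))) = _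
    rw [← sub_eq_add_neg, inv_mul_cancel₀ (sub_ne_zero.2 hne.symm), mul_one, ha0]
    refine Prod.ext rfl ?_
    show q.2 + -p.2 + -(q.2 - p.2) = 0
    abel

omit [Finite E] [Finite W] in
lemma to_base' (τ : E →+ W) (hτ : Function.Surjective τ) (p q : E × W)
    (h : NonJoined (Inc τ) p q) :
    ∃ v : W, v ≠ 0 ∧ ∃ g ∈ autGroup (Inc τ), g p = (0, 0) ∧ g q = (0, v) := by
  have h1 : p.1 = q.1 := by
    by_contra hne
    exact h.2 ((joined_iff τ hτ p q).2 (Or.inl hne))
  refine ⟨q.2 - p.2, sub_ne_zero.2 fun h2 => h.1 (Prod.ext h1 h2.symm),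
    trans (-p.1) (-p.2), trans_mem τ _ _, ?_, ?_⟩
  · show (p.1 + -p.1, p.2 + -p.2) = _
    simp
  · show (q.1 + -p.1, q.2 + -p.2) = _
    rw [h1]
    simp [sub_eq_add_neg]

omit [Finite E] [Finite W] in
lemma transitive_joined (τ : E →+ W) (hτ : Function.Surjective τ) :
    TransitiveOnPairs (autGroup (Inc τ)) (Joined (Inc τ)) := by
  intro p q p' q' h h'
  obtain ⟨g, hg, h1, h2⟩ := to_base τ hτ p q h
  obtain ⟨g', hg', h1', h2'⟩ := to_base τ hτ p' q' h'
  refine ⟨g'⁻¹ * g, mul_mem (inv_mem hg') hg, ?_⟩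
  rw [Set.image_pair, Equiv.Perm.mul_apply, Equiv.Perm.mul_apply, h1, h2, ← h1', ← h2',
    perm_inv_apply, perm_inv_apply]

omit [Finite E] [Finite W] in
lemma transitive_nonJoined (τ : E →+ W) (hτ : Function.Surjective τ)
    (hρ : ∀ v v' : W, v ≠ 0 → v' ≠ 0 → ∃ (σ : E ≃+* E) (ρ : W ≃+ W), (∀ z, τ (σ z) = ρ (τ z)) ∧
      ρ v = v') :
    TransitiveOnPairs (autGroup (Inc τ)) (NonJoined (Inc τ)) := by
  intro p q p' q' h h'
  obtain ⟨v, hv, g, hg, h1, h2⟩ := to_base' τ hτ p q h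
  obtain ⟨v', hv', g', hg', h1', h2'⟩ := to_base' τ hτ p' q' h'
  obtain ⟨σ, ρ, hσ, hvv⟩ := hρ v v' hv hv'
  refine ⟨g'⁻¹ * (fieldAut σ ρ * g),
    mul_mem (inv_mem hg') (mul_mem (fieldAut_mem τ σ ρ hσ) hg), ?_⟩
  have e1 : fieldAut σ ρ ((0 : E), (0 : W)) = (0, 0) := by
    show (σ 0, ρ 0) = _
    simp
  have e2 : fieldAut σ ρ ((0 : E), v) = (0, v') := by
    show (σ 0, ρ v) = _
    simp [hvv]
  rw [Set.image_pair, Equiv.Perm.mul_apply, Equiv.Perm.mul_apply, Equiv.Perm.mul_apply,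
    Equiv.Perm.mul_apply, h1, h2, e1, e2, ← h1', ← h2',
    perm_inv_apply, perm_inv_apply]

end General

/-! ### The example -/

section Example

variable (t : ℕ)

/-- The field with `2 ^ (3 t)` elements. -/
abbrev E (t : ℕ) : Type := GaloisField 2 (3 * t)

/-- The value group, of order four. -/
abbrev W : Type := ZMod 2 × ZMod 2

noncomputable instance : Fintype (E t) := Fintype.ofFinite _

lemma card_E (ht : t ≠ 0) : Nat.card (E t) = 2 ^ (3 * t) :=
  GaloisField.card 2 (3 * t) (by omega)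

/-- `x ↦ x ^ (2 ^ t)`. -/
noncomputable def sg : E t ≃ₐ[ZMod 2] E t := (FiniteField.frobeniusAlgEquivOfAlgebraic (ZMod 2) (E t)) ^ t

lemma sg_apply (x : E t) : sg t x = x ^ (2 ^ t) := by
  unfold sg
  rw [AlgEquiv.coe_pow, FiniteField.coe_frobeniusAlgEquivOfAlgebraic_iterate, ZMod.card]

lemma sg_three (ht : t ≠ 0) (x : E t) : sg t (sg t (sg t x)) = x := by
  have h : Nat.card (E t) = 2 ^ (t + (t + t)) := by
    rw [card_E t ht]; congr 1; ring
  rw [sg_apply, sg_apply, sg_apply, ← pow_mul, ← pow_mul, ← pow_add, ← pow_add, ← h,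
    Nat.card_eq_fintype_card]
  exact FiniteField.pow_card x

lemma add_self' (x : E t) : x + x = 0 := CharTwo.add_self_eq_zero x

lemma sg_ne_one (ht : t ≠ 0) : ∃ x : E t, sg t x ≠ x := by
  by_contra h
  push Not at h
  have h1 : sg t = 1 := by
    ext x
    exact h x
  have h2 : orderOf (FiniteField.frobeniusAlgEquivOfAlgebraic (ZMod 2) (E t)) = 3 * t := by
    rw [FiniteField.orderOf_frobeniusAlgEquivOfAlgebraic]
    exact GaloisField.finrank 2 (by omega)
  have h3 := orderOf_dvd_of_pow_eq_one (show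
    (FiniteField.frobeniusAlgEquivOfAlgebraic (ZMod 2) (E t)) ^ t = 1 from h1)
  rw [h2] at h3
  have := Nat.le_of_dvd (by omega) h3
  omega

lemma exists_l (ht : t ≠ 0) : ∃ l : E t, l ≠ 0 ∧ sg t l ≠ l ∧ sg t (sg t l) = l + sg t l := by
  obtain ⟨x, hx⟩ := sg_ne_one t ht
  have h2 : sg t (sg t (x + sg t x)) = (x + sg t x) + sg t (x + sg t x) := by
    rw [map_add, map_add, sg_three t ht]
    have := add_self' t (sg t x)
    linear_combination -this
  have h0 : x + sg t x ≠ 0 := by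
    intro h
    apply hx
    have := add_self' t x
    linear_combination h - this
  refine ⟨x + sg t x, h0, ?_, h2⟩
  intro h
  rw [h, h, add_self'] at h2
  exact h0 h2

/-- The trace to the prime field. -/
noncomputable def tr : E t →+ ZMod 2 := (Algebra.trace (ZMod 2) (E t)).toAddMonoidHom

lemma tr_sg (x : E t) : tr t (sg t x) = tr t x := Algebra.trace_eq_of_algEquiv (sg t) x

lemma tr_nondeg (a : E t) (ha : a ≠ 0) : ∃ b, tr t (a * b) = 1 := by
  by_contra hcon
  push Not at hcon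
  have htr := (traceForm_nondegenerate (ZMod 2) (E t)).1 a
  simp_rw [Algebra.traceForm_apply] at htr
  have h01 : ∀ x : ZMod 2, x ≠ 1 → x = 0 := by decide
  exact ha (htr fun b => h01 _ (hcon b))

/-- `z ↦ (Tr(l z), Tr(σ(l) z))`. -/
noncomputable def tau (l : E t) : E t →+ W :=
  ((tr t).comp (AddMonoidHom.mulLeft l)).prod ((tr t).comp (AddMonoidHom.mulLeft (sg t l)))

lemma tau_apply (l z : E t) : tau t l z = (tr t (l * z), tr t (sg t l * z)) := rfl

lemma zmod_comb : ∀ b1 a2 a3 b3 u v : ZMod 2, a3 + b3 = 1 →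
    ∃ c1 c2 c3 : ℕ, c1 • 1 + c2 • a2 + c3 • a3 = u ∧ c1 • b1 + c2 • 1 + c3 • b3 = v := by
  have key : ∀ b1 a2 a3 b3 u v : ZMod 2, a3 + b3 = 1 →
    ∃ c1 c2 c3 : Fin 2, (c1 : ℕ) • 1 + (c2 : ℕ) • a2 + (c3 : ℕ) • a3 = u ∧
      (c1 : ℕ) • b1 + (c2 : ℕ) • 1 + (c3 : ℕ) • b3 = v := by decide
  intro b1 a2 a3 b3 u v h
  obtain ⟨c1, c2, c3, h1⟩ := key b1 a2 a3 b3 u v h
  exact ⟨c1, c2, c3, h1⟩

lemma tau_surjective (l : E t) (h0 : l ≠ 0) (h1 : sg t l ≠ l) : Function.Surjective (tau t l) := by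
  have h2 : sg t l ≠ 0 := by
    rw [Ne, map_eq_zero_iff _ (sg t).injective]
    exact h0
  have h3 : l + sg t l ≠ 0 := by
    intro h
    apply h1
    have := add_self' t l
    linear_combination h - this
  obtain ⟨z1, hz1⟩ := tr_nondeg t l h0
  obtain ⟨z2, hz2⟩ := tr_nondeg t _ h2
  obtain ⟨z3, hz3⟩ := tr_nondeg t _ h3
  rw [add_mul, map_add] at hz3
  rintro ⟨u, v⟩
  obtain ⟨c1, c2, c3, hc1, hc2⟩ := zmod_comb (tr t (sg t l * z1)) (tr t (l * z2)) _ _ u v hz3
  refine ⟨c1 • z1 + c2 • z2 + c3 • z3, ?_⟩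
  rw [map_add, map_add, map_nsmul, map_nsmul, map_nsmul, tau_apply, tau_apply, tau_apply, hz1, hz2]
  exact Prod.ext hc1 hc2

/-- The action on the value group. -/
def rho : W ≃+ W where
  toFun y := (y.1 + y.2, y.1)
  invFun y := (y.2, y.1 + y.2)
  left_inv := by decide
  right_inv := by decide
  map_add' := by decide

lemma tau_sg (ht : t ≠ 0) (l z : E t) (h : sg t (sg t l) = l + sg t l) :
    tau t l (sg t z) = rho (tau t l z) := by
  rw [tau_apply, tau_apply]
  refine Prod.ext ?_ ?_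
  · show tr t (l * sg t z) = tr t (l * z) + tr t (sg t l * z)
    have h1 : l * sg t z = sg t (sg t (sg t l) * z) := by
      rw [map_mul, sg_three t ht]
    rw [h1, tr_sg, h, add_mul, map_add]
  · show tr t (sg t l * sg t z) = tr t (l * z)
    rw [← map_mul, tr_sg]

lemma rho_trans : ∀ v v' : W, v ≠ 0 → v' ≠ 0 → v = v' ∨ rho v = v' ∨ rho (rho v) = v' := by
  decide

end Example

/-- For every odd `t` there is a symmetric `(4, 2 ^ (3 t - 2))`-net that is not classical, although it has a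
group of automorphisms which is transitive on the pairs of joined points and on the pairs of distinct
non-joined points. -/
theorem result (t : ℕ) (ht : Odd t) :
    ∃ (P B : Type) (I : P → B → Prop), IsSymmetricNet I 4 (2 ^ (3 * t - 2)) ∧
      (∃ G : Subgroup (Equiv.Perm P), (∀ g ∈ G, IsAutomorphism I g) ∧
        TransitiveOnPairs G (Joined I) ∧ TransitiveOnPairs G (NonJoined I)) ∧
      ¬ IsClassical I := by
  have ht0 : t ≠ 0 := by rintro rfl; exact absurd ht (by decide)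
  obtain ⟨l, h0, h1, h2⟩ := exists_l t ht0
  have hsurj := tau_surjective t l h0 h1
  have hW : Nat.card W = 4 := by
    rw [Nat.card_prod, Nat.card_zmod]
  have hE : Nat.card (E t) = 4 * 2 ^ (3 * t - 2) := by
    rw [card_E t ht0, show 3 * t = 2 + (3 * t - 2) by omega, pow_add]
    norm_num
  have hpow : 1 ≤ 2 ^ (3 * t - 2) := Nat.one_le_two_pow
  refine ⟨E t × W, E t × W, Inc (tau t l),
    isSymmetricNet _ hsurj 4 _ (by norm_num) hpow (by omega) hW hE,
    ⟨autGroup (Inc (tau t l)), fun g hg => hg.1, transitive_joined _ hsurj,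
      transitive_nonJoined _ hsurj ?_⟩, fun hcl => not_classical _ hcl ?_⟩
  · intro v v' hv hv'
    rcases rho_trans v v' hv hv' with h | h | h
    · exact ⟨RingEquiv.refl _, AddEquiv.refl _, fun z => rfl, h⟩
    · exact ⟨(sg t).toRingEquiv, rho, fun z => tau_sg t ht0 l z h2, h⟩
    · refine ⟨(sg t).toRingEquiv.trans (sg t).toRingEquiv, rho.trans rho, fun z => ?_, h⟩
      show tau t l (sg t (sg t z)) = rho (rho (tau t l z))
      rw [tau_sg t ht0 l _ h2, tau_sg t ht0 l _ h2]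
  · intro d hd
    rw [hW, card_E t ht0, show (4 : ℕ) = 2 ^ 2 by norm_num, ← pow_add, ← pow_mul] at hd
    have := Nat.pow_right_injective (le_refl 2) hd
    obtain ⟨k, hk⟩ := ht
    omega

end Pool.Agent.Results.MP_36fbc5_co.NonClassicalPairTransitive
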